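import Pool.Agent.H.MP_526336.A

set_option autoImplicit false
open Set Filter Topology TopologicalSpace

namespace Pool.Agent.H.MP_eb6644

open Pool.Agent.H.MP_d2b9e5 (Om Om1 Om2)
open Pool.Agent.H.MP_28dc43 (o2 lim2 inj bdd)
open Pool.Agent.H.MP_526336 (ret nv BV)

variable {X Γ K : Type} [TopologicalSpace X] [CompactSpace X] [LinearOrder K] [TopologicalSpace K]
  [OrderTopology K] {h : X → Γ → ℝ} {π : X → K}

theorem clc [SecondCountableTopology X] (hg : Continuous π) {P : Set K}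
    (h1 : ∀ p ∈ P, IsOpen {z | π z ≤ p})
    (h2 : ∀ p ∈ P, ∀ q ∈ P, p < q → ∃ z, p < π z ∧ π z ≤ q) : P.Countable := by
  choose! t ht using fun p (hp : p ∈ P) => eq_sUnion_finset_of_isTopologicalBasis_of_isCompact_open _
    (isBasis_countableBasis X) {z | π z ≤ p} (isClosed_le hg continuous_const).isCompact (h1 p hp)
  have key : ∀ p ∈ P, ∀ q ∈ P, t p = t q → ¬ p < q := fun p hp q hq e hpq => by
    obtain ⟨z, z1, z2⟩ := h2 p hp q hq hpq
    have : z ∈ {z | π z ≤ q} := z2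
    rw [ht q hq, ← e, ← ht p hp] at this
    exact absurd z1 (not_lt.2 this)
  exact countable_of_injective_of_countable_image (f := t) (fun p hp q hq e =>
    le_antisymm (not_lt.1 (key q hq p hp e.symm)) (not_lt.1 (key p hp q hq e))) (to_countable _)

theorem nn [SecondCountableTopology X] (hg : Continuous π) :
    ∃ J : Set K, J.Countable ∧ ∀ z q, π z < q → ∃ u ∈ J, π z ≤ u ∧ u < q := by
  obtain ⟨D, D1, D2⟩ := exists_countable_dense X
  refine ⟨π '' D ∪ {c ∈ range π | IsOpen {z | π z ≤ c}}, (D1.image _).union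
    (clc hg (fun p hp => hp.2) ?_), fun z q hq => ?_⟩
  · rintro p - _ ⟨⟨z, rfl⟩, -⟩ hp
    exact ⟨z, hp, le_rfl⟩
  · by_cases hn : (π ⁻¹' Ioo (π z) q).Nonempty
    · obtain ⟨d, d1, d2⟩ := D2.exists_mem_open (isOpen_Ioo.preimage hg) hn
      exact ⟨_, Or.inl ⟨d, d1, rfl⟩, d2.1.le, d2.2⟩
    · refine ⟨_, Or.inr ⟨⟨z, rfl⟩, ?_⟩, le_rfl, hq⟩
      convert (isOpen_Iio (a := q)).preimage hg using 1
      ext y
      exact ⟨fun hy => lt_of_le_of_lt hy hq, fun hy => not_lt.1 fun hy' => hn ⟨y, hy', hy⟩⟩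

def Y (h : X → Γ → ℝ) (T : Set Γ) : Set X := {x | ∀ θ ∉ T, h x θ = 0}

theorem Yc (hc : Continuous h) (T : Set Γ) : IsClosed (Y h T) := by
  simp only [Y, ofPred_forall]
  exact isClosed_iInter fun i => isClosed_iInter fun _ =>
    isClosed_eq (by fun_prop) continuous_const

theorem Ys (hc : Continuous h) (hi : Function.Injective h) {T : Set Γ} (hT : T.Countable) :
    SecondCountableTopology (Y h T) := by
  have := hT.to_subtype
  have := isCompact_iff_compactSpace.1 (Yc hc T).isCompact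
  refine (Continuous.isClosedEmbedding (f := fun z : Y h T => T.domRestrict (h z))
    ((Pi.continuous_domRestrict _).comp (hc.comp continuous_subtype_val)) fun a b e =>
      Subtype.ext (hi (funext fun θ => ?_))).isEmbedding.secondCountableTopology
  by_cases hθ : θ ∈ T
  · exact congrFun e ⟨θ, hθ⟩
  · rw [a.2 θ hθ, b.2 θ hθ]

theorem nY (hc : Continuous h) (hi : Function.Injective h) (hπ : Continuous π) (T : Set Γ) :
    ∃ J : Set K, J.Countable ∧ (T.Countable → ∀ z ∈ Y h T, ∀ q, π z < q →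
      ∃ u ∈ J, π z ≤ u ∧ u < q) := by
  by_cases hT : T.Countable
  · have := Ys hc hi hT
    have := isCompact_iff_compactSpace.1 (Yc hc T).isCompact
    obtain ⟨J, J1, J2⟩ := nn (π := fun z : Y h T => π z) (hπ.comp continuous_subtype_val)
    exact ⟨J, J1, fun _ z hz => J2 ⟨z, hz⟩⟩
  · exact ⟨∅, countable_empty, fun h => absurd h hT⟩

theorem sep (hc : Continuous h) (hi : Function.Injective h) (hπ : Continuous π) (u v : K) :
    ∃ T : Set Γ, T.Countable ∧
      (u < v → ∀ x y, (∀ θ ∈ T, h x θ = h y θ) → π x ≤ u → π y < v) := by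
  by_cases huv : u < v
  swap
  · exact ⟨∅, countable_empty, fun h => absurd h huv⟩
  have hK : IsCompact {p : X × X | π p.1 ≤ u ∧ v ≤ π p.2} :=
    ((isClosed_le (by fun_prop) continuous_const).inter
      (isClosed_le continuous_const (by fun_prop))).isCompact
  obtain ⟨t, ht⟩ := hK.elim_finite_subfamily_closed (fun i => {p | h p.1 i = h p.2 i})
    (fun i => isClosed_eq (by fun_prop) (by fun_prop)) (by
      refine eq_empty_of_forall_notMem fun p hp => ?_
      have e : p.1 = p.2 := hi (funext fun i => mem_iInter.1 hp.2 i)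
      exact absurd (hp.1.2.trans (e ▸ hp.1.1)) (not_le.2 huv))
  refine ⟨t, t.countable_toSet, fun _ x y hxy hx => not_le.1 fun hy => ?_⟩
  exact (eq_empty_iff_forall_notMem.1 ht (x, y)) ⟨⟨hx, hy⟩, mem_iInter₂.2 hxy⟩

theorem cof (hc : Continuous h) (hi : Function.Injective h)
    (hd : Dense {p | {θ | h p θ ≠ 0}.Countable}) (hπ : Continuous π) (hs : Function.Surjective π)
    (c : K) : ∃ w : Om → K, ∀ b < c, ∃ η, b ≤ w η ∧ w η < c := by
  classical
  by_contra hn
  push Not at hn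
  choose nx n1 n2 using hn
  obtain ⟨ξ0, -⟩ := bdd countable_empty
  have : Nonempty Om := ⟨ξ0⟩
  choose! ρ hr using fun (b : Ordinal.{0}) (h : b < o2) => inj h
  let H : (a : Ordinal.{0}) → ((b : Ordinal.{0}) → b < a → K) → K := fun a v =>
    nx fun η => if e : ∃ b, b < a ∧ ρ a b = η then v e.choose e.choose_spec.1 else c
  let k : Ordinal.{0} → K := (wellFounded_lt (α := Ordinal.{0})).fix H
  have k1 : ∀ a, k a = nx fun η => if e : ∃ b, b < a ∧ ρ a b = η then k e.choose else c :=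
    fun a => WellFounded.fix_eq _ _ _
  have k2 : ∀ a, k a < c := fun a => k1 a ▸ n1 _
  have k3 : ∀ a < o2, ∀ b < a, k b < k a := fun a ha b hb => by
    have e : ∃ b', b' < a ∧ ρ a b' = ρ a b := ⟨b, hb, rfl⟩
    have e' : e.choose = b := hr a ha e.choose_spec.1 hb e.choose_spec.2
    have := n2 (fun η => if e : ∃ b, b < a ∧ ρ a b = η then k e.choose else c) (ρ a b)
    rw [← k1, dif_pos e, e'] at this
    exact not_le.1 fun h => absurd (k2 b) (not_lt.2 (this h))
  have k4 : ∀ a < o2, ∀ b ≤ a, k b ≤ k a := fun a ha b hb =>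
    hb.eq_or_lt.elim (fun e => e ▸ le_rfl) fun e => (k3 a ha b e).le
  have ex : ∀ a : Ordinal.{0}, ∃ f : C(K, ℝ), (∀ t, f t ∈ Icc (0 : ℝ) 1) ∧ (¬ a < o2 → ∀ t, f t = 1) ∧
      (a < o2 → ∀ t, (t ≤ k a → f t = 1) ∧ (k (a + 1) ≤ t → f t = 0)) := by
    intro a
    by_cases ha : a < o2
    · obtain ⟨f, f1, f2, f3⟩ := exists_continuous_zero_one_of_isClosed (isClosed_Ici (a := k (a + 1)))
        (isClosed_Iic (a := k a)) (disjoint_left.2 fun t h1 h2 =>
          absurd (le_trans h1 h2) (not_le.2 (k3 _ (lim2 ha) _ (lt_add_one a))))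
      exact ⟨f, f3, fun h => absurd ha h, fun _ t => ⟨fun h => f2 h, fun h => f1 h⟩⟩
    · exact ⟨1, fun _ => by simp, fun _ _ => rfl, fun h => absurd h ha⟩
  choose f f1 f2 f3 using ex
  have mo : ∀ t, Monotone fun a => f a t := fun t a b hab => by
    rcases hab.eq_or_lt with rfl | hab
    · exact le_rfl
    by_cases hb : b < o2
    · by_cases ht : t ≤ k b
      · exact (f1 a t).2.trans ((f3 b hb t).1 ht).ge
      · exact ((f3 a (hab.trans hb) t).2 ((k4 b hb _ (Order.add_one_le_of_lt hab)).trans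
          (not_le.1 ht).le)).le.trans (f1 b t).1
    · exact (f1 a t).2.trans (f2 b hb t).ge
  refine nv hc hi hd (fun a p => f a (π p)) (fun a => (f a).continuous.comp hπ) (C := 1)
    (fun p a b s n h1 h2 h3 => ?_) one_pos fun d hd => ?_
  · have e : ∀ n, ∑ j ∈ Finset.range n, (f (b j) (π p) - f (a j) (π p)) ≤ f (a n) (π p) := by
      intro n
      induction n with
      | zero => simpa using (f1 _ _).1
      | succ n ih => rw [Finset.sum_range_succ]; linarith [mo (π p) (h2 n)]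
    rcases Nat.eq_zero_or_pos n with rfl | hn
    · simp
    refine (Finset.abs_sum_le_sum_abs _ _).trans ((Finset.sum_le_sum fun j _ => ?_).trans
      ((e n).trans ((f1 _ _).2.trans ?_)))
    · rw [abs_mul, show |s j| = 1 by rcases h3 j with e | e <;> simp [e], one_mul,
        abs_of_nonneg (sub_nonneg.2 (mo (π p) (h1 j)))]
    · rw [one_mul]
      exact Real.one_le_sqrt.2 (by exact_mod_cast hn)
  · obtain ⟨p, hp⟩ := hs (k (d + 1))
    refine ⟨p, fun a => ?_⟩
    rw [hp]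
    by_cases ha : a < o2
    · split_ifs with e
      · exact (f3 a ha _).1 (k4 a ha _ (Order.add_one_le_of_lt e))
      · exact (f3 a ha _).2 (k4 _ (lim2 hd) _ (by gcongr; exact not_lt.1 e))
    · rw [f2 a ha, if_pos (hd.trans_le (not_lt.1 ha))]

theorem rec1 {Z : Type} (F : Om → Set Z → Set Z) (hF : ∀ ξ V, V.Countable → (F ξ V).Countable) :
    ∃ U : Om → Set Z, (∀ ξ, (⋃ ζ ∈ Iio ξ, U ζ).Countable) ∧ ∀ ξ, U ξ = F ξ (⋃ ζ ∈ Iio ξ, U ζ) := by
  let H : (ξ : Om) → ((η : Om) → η < ξ → Set Z) → Set Z := fun ξ v => F ξ (⋃ ζ, ⋃ e : ζ < ξ, v ζ e)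
  let U : Om → Set Z := (wellFounded_lt (α := Om)).fix H
  have u1 : ∀ ξ, U ξ = F ξ (⋃ ζ ∈ Iio ξ, U ζ) := fun ξ => WellFounded.fix_eq _ _ _
  have u2 : ∀ ξ, (U ξ).Countable := fun ξ => by
    induction ξ using WellFoundedLT.induction with
    | ind ξ ih => rw [u1]; exact hF _ _ ((Om2 ξ).biUnion ih)
  exact ⟨U, fun ξ => (Om2 ξ).biUnion fun ζ _ => u2 ζ, u1⟩

end Pool.Agent.H.MP_eb6644
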