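import Pool.Agent.H.MP_eb6644.A

set_option autoImplicit false
open Set Filter Topology TopologicalSpace

namespace Pool.Agent.H.MP_eb6644

open Pool.Agent.H.MP_d2b9e5 (Om Om1 Om2)
open Pool.Agent.H.MP_28dc43 (o2 lim2 inj bdd)
open Pool.Agent.H.MP_526336 (ret nv BV)

variable {X Γ K : Type} [TopologicalSpace X] [CompactSpace X] [LinearOrder K] [TopologicalSpace K]
  [OrderTopology K] {h : X → Γ → ℝ} {π : X → K}

theorem chain (hc : Continuous h) (hi : Function.Injective h)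
    (hd : Dense {p | {θ | h p θ ≠ 0}.Countable}) (hπ : Continuous π) (hs : Function.Surjective π) :
    ∃ (S : Om → Set Γ) (R : Om → X → X) (N : Set K), (∀ ξ, (S ξ).Countable) ∧ Monotone S ∧
      (∀ ξ x, (∀ θ ∈ S ξ, h (R ξ x) θ = h x θ) ∧ R ξ x ∈ Y h (S ξ)) ∧
      (∀ u ∈ N, ∀ v ∈ N, u < v → ∃ ξ, ∀ x y, (∀ θ ∈ S ξ, h x θ = h y θ) → π x ≤ u → π y < v) ∧
      (∀ ξ, ∀ z ∈ Y h (S ξ), ∀ q, π z < q → ∃ u ∈ N, ∃ v ∈ N, π z ≤ u ∧ u < v ∧ v ≤ q) ∧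
      (∀ ξ, ∀ z ∈ Y h (S ξ), ∀ q, q < π z → ∃ u ∈ N, ∃ v ∈ N, q ≤ u ∧ u < v ∧ v ≤ π z) := by
  choose hS r D hh using ret hc hd
  choose C C1 C2 using sep hc hi hπ
  choose w hw using cof hc hi hd hπ hs
  choose w' hw' using cof (K := Kᵒᵈ) hc hi hd hπ hs
  choose JR R1 R2 using nY hc hi hπ
  choose JL L1 L2 using nY (K := Kᵒᵈ) hc hi hπ
  let a : Set (Γ ⊕ K) → Set Γ := fun V =>
    Sum.inl ⁻¹' V ∪ ⋃ u ∈ Sum.inr ⁻¹' V, ⋃ v ∈ Sum.inr ⁻¹' V, C u v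
  have a1 : ∀ V, V.Countable → (a V).Countable := fun V hV =>
    (hV.preimage Sum.inl_injective).union ((hV.preimage Sum.inr_injective).biUnion fun u _ =>
      (hV.preimage Sum.inr_injective).biUnion fun v _ => C1 u v)
  obtain ⟨U, U1, U2⟩ := rec1 (Z := Γ ⊕ K) (fun ξ V => Sum.inl '' hS (a V) ∪ Sum.inr ''
      ((JR (hS (a V)) ∪ JL (hS (a V))) ∪ ⋃ c ∈ Sum.inr ⁻¹' V, (w c '' Iio ξ ∪ w' c '' Iio ξ)))
    fun ξ V hV => ((hh _ (a1 V hV)).2.1.image _).union ((((R1 _).union (L1 _)).union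
      ((hV.preimage Sum.inr_injective).biUnion fun c _ =>
        ((Om2 ξ).image _).union ((Om2 ξ).image _))).image _)
  have g := fun ξ => hh _ (a1 _ (U1 ξ))
  have b2 : ∀ a b : Om, ∃ c, a < c ∧ b < c := fun a b => by
    obtain ⟨c, hc⟩ := bdd ((countable_singleton b).insert a)
    exact ⟨c, hc a (Or.inl rfl), hc b (Or.inr rfl)⟩
  have w1 : ∀ c ξ η, Sum.inr c ∈ U ξ →
      (∃ ζ, Sum.inr (w c η) ∈ U ζ) ∧ ∃ ζ, Sum.inr (show K from w' c η) ∈ U ζ := by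
    intro c ξ η hc
    obtain ⟨ζ, z1, z2⟩ := b2 ξ η
    refine ⟨⟨ζ, ?_⟩, ⟨ζ, ?_⟩⟩ <;> rw [U2]
    · exact Or.inr ⟨_, Or.inr (mem_iUnion₂.2 ⟨c, mem_iUnion₂.2 ⟨ξ, z1, hc⟩, Or.inl ⟨η, z2, rfl⟩⟩), rfl⟩
    · exact Or.inr ⟨_, Or.inr (mem_iUnion₂.2 ⟨c, mem_iUnion₂.2 ⟨ξ, z1, hc⟩, Or.inr ⟨η, z2, rfl⟩⟩), rfl⟩
  refine ⟨fun ξ => hS (a (⋃ ζ ∈ Iio ξ, U ζ)), fun ξ => r (a (⋃ ζ ∈ Iio ξ, U ζ)),
    {c | ∃ ξ, Sum.inr c ∈ U ξ}, fun ξ => (g ξ).2.1, monotone_iff_forall_lt.2 fun ζ ξ e θ hθ => ?_,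
    fun ξ x => ((g ξ).2.2.2 x).2, ?_, fun ξ z hz q hq => ?_, fun ξ z hz q hq => ?_⟩
  · refine (g ξ).1 (Or.inl (mem_iUnion₂.2 ⟨ζ, e, ?_⟩))
    rw [U2]
    exact Or.inl ⟨θ, hθ, rfl⟩
  · rintro u ⟨ξ, hu⟩ v ⟨η, hv⟩ huv
    obtain ⟨ζ, z1, z2⟩ := b2 ξ η
    exact ⟨ζ, fun x y hxy => C2 u v huv x y fun θ hθ => hxy θ ((g ζ).1 (Or.inr (mem_iUnion₂.2
      ⟨u, mem_iUnion₂.2 ⟨ξ, z1, hu⟩, mem_iUnion₂.2 ⟨v, mem_iUnion₂.2 ⟨η, z2, hv⟩, hθ⟩⟩)))⟩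
  · obtain ⟨u, u1, u2, u3⟩ := R2 _ (g ξ).2.1 z hz q hq
    have u4 : Sum.inr u ∈ U ξ := by rw [U2]; exact Or.inr ⟨u, Or.inl (Or.inl u1), rfl⟩
    obtain ⟨η, e1, e2⟩ := hw' u q u3
    exact ⟨u, ⟨ξ, u4⟩, _, (w1 u ξ η u4).2, u2, e2, e1⟩
  · obtain ⟨u, u1, u2, u3⟩ := L2 _ (g ξ).2.1 z hz q hq
    have u4 : Sum.inr (show K from u) ∈ U ξ := by
      rw [U2]; exact Or.inr ⟨u, Or.inl (Or.inr u1), rfl⟩
    obtain ⟨η, e1, e2⟩ := hw u q u3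
    exact ⟨_, (w1 u ξ η u4).1, u, ⟨ξ, u4⟩, e1, e2, u2⟩

def LC (p : K) : Prop := ∃ s : Set K, s.Countable ∧ (∀ c ∈ s, c < p) ∧ ∀ b < p, ∃ c ∈ s, b ≤ c

theorem main (hc : Continuous h) (hi : Function.Injective h)
    (hd : Dense {p | {θ | h p θ ≠ 0}.Countable}) (hπ : Continuous π) (hs : Function.Surjective π) :
    Cardinal.mk {p : K | ¬ LC p} ≤ Cardinal.aleph 1 := by
  obtain ⟨S, R, N, S1, S2, R1, g1, g2, g3⟩ := chain hc hi hd hπ hs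
  choose JL L1 L2 using nY (K := Kᵒᵈ) hc hi hπ
  have ind := (hc.isClosedEmbedding hi).isInducing
  have Rc : ∀ ξ, Continuous (R ξ) := fun ξ => ind.continuous_iff.2 (continuous_pi fun θ => by
    by_cases e : θ ∈ S ξ
    · simp only [Function.comp_apply, fun x => (R1 ξ x).1 θ e]
      fun_prop
    · simp only [Function.comp_apply, fun x => (R1 ξ x).2 θ e]
      fun_prop)
  have lim : ∀ (ξ ζ : ℕ → Om), Monotone ξ → (∀ n, ξ n ≤ ζ n) → ∀ y ∈ Y h (⋃ n, S (ξ n)),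
      Tendsto (fun n => π (R (ζ n) y)) atTop (𝓝 (π y)) := by
    intro ξ ζ m1 m2 y hy
    refine (hπ.tendsto y).comp (ind.tendsto_nhds_iff.2 (tendsto_pi_nhds.2 fun θ =>
      tendsto_const_nhds.congr' ?_))
    by_cases e : θ ∈ ⋃ n, S (ξ n)
    · obtain ⟨k, hk⟩ := mem_iUnion.1 e
      exact (eventually_ge_atTop k).mono fun n hn =>
        ((R1 _ y).1 θ (S2 ((m1 hn).trans (m2 n)) hk)).symm
    · refine .of_forall fun n => ?_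
      by_cases e' : θ ∈ S (ζ n)
      · exact ((R1 _ y).1 θ e').symm
      · exact (hy θ e).trans ((R1 _ y).2 θ e').symm
  have Ym : ∀ {A B : Set Γ}, A ⊆ B → Y h A ⊆ Y h B := fun e x hx θ hθ => hx θ fun h => hθ (e h)
  have bd : ∀ ξ : ℕ → Om, ∃ b, Y h (⋃ n, S (ξ n)) ⊆ Y h (S b) := fun ξ => by
    obtain ⟨b, hb⟩ := bdd (countable_range ξ)
    exact ⟨b, Ym (iUnion_subset fun n => S2 (hb _ ⟨n, rfl⟩).le)⟩
  have sig : ∀ x, {θ | h x θ ≠ 0}.Countable → ∃ ξ, π (R ξ x) = π x := by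
    intro x hx
    obtain ⟨ξ0, -⟩ := bdd countable_empty
    have : Nonempty Om := ⟨ξ0⟩
    choose! k hk using fun θ (e : ∃ ζ, θ ∈ S ζ) => e
    obtain ⟨ξ, hξ⟩ := bdd (hx.image k)
    have ag : ∀ ζ, ∀ θ ∈ S ζ, h (R ξ x) θ = h x θ := fun ζ θ hθ => by
      by_cases e : θ ∈ S ξ
      · exact (R1 ξ x).1 θ e
      · rw [(R1 ξ x).2 θ e]
        by_contra hn
        exact e (S2 (hξ _ ⟨θ, Ne.symm hn, rfl⟩).le (hk θ ⟨ζ, hθ⟩))
    refine ⟨ξ, le_antisymm (not_lt.1 fun e => ?_) (not_lt.1 fun e => ?_)⟩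
    · obtain ⟨u, hu, v, hv, e1, e2, e3⟩ := g3 ξ _ (R1 ξ x).2 _ e
      obtain ⟨ζ, hζ⟩ := g1 u hu v hv e2
      exact absurd (hζ _ _ (fun θ hθ => (ag ζ θ hθ).symm) e1) (not_lt.2 e3)
    · obtain ⟨u, hu, v, hv, e1, e2, e3⟩ := g2 ξ _ (R1 ξ x).2 _ e
      obtain ⟨ζ, hζ⟩ := g1 u hu v hv e2
      exact absurd (hζ _ _ (ag ζ) e1) (not_lt.2 e3)
  have np : ∀ p : K, ¬ LC p → ∀ u < p, ∃ v, u < v ∧ v < p := fun p hp u hu => by
    by_contra hn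
    push Not at hn
    exact hp ⟨{u}, countable_singleton _, fun c hc => hc ▸ hu, fun b hb =>
      ⟨u, rfl, not_lt.1 fun e => absurd hb (not_lt.2 (hn b e))⟩⟩
  have dn : ∀ p : K, ¬ LC p → ∀ u < p, ∃ ξ, ∃ z ∈ Y h (S ξ), u < π z ∧ π z < p := by
    intro p hp u hu
    obtain ⟨v, hv⟩ := np p hp u hu
    obtain ⟨x, rfl⟩ := hs v
    obtain ⟨y, y1, y2⟩ := hd.exists_mem_open (isOpen_Ioo.preimage hπ) (U := π ⁻¹' Ioo u p) ⟨x, hv⟩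
    obtain ⟨ξ, hξ⟩ := sig y y1
    exact ⟨ξ, _, (R1 ξ y).2, hξ ▸ y2⟩
  let P : Om → Set K := fun ξ0 => {p | ¬ LC p ∧ (∀ ξ, ∀ z ∈ Y h (S ξ), π z ≠ p) ∧
    ∃ x, π x = p ∧ ∀ ζ, ξ0 ≤ ζ → π (R ζ x) < p}
  have pa : ∀ p, ¬ LC p → (∀ ξ, ∀ z ∈ Y h (S ξ), π z ≠ p) → ∃ ξ0, p ∈ P ξ0 := by
    intro p hp hz
    by_contra hn
    have st : ∀ ξ0, ∃ u < p, ∀ x, u ≤ π x → π x ≤ p → ∃ ζ, ξ0 ≤ ζ ∧ p < π (R ζ x) := by
      intro ξ0
      by_contra hm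
      push Not at hm
      have : Nonempty (Iio p) := by
        by_contra he
        exact hp ⟨∅, countable_empty, by simp, fun b hb => absurd ⟨⟨b, hb⟩⟩ he⟩
      have cl : ∀ u : Iio p,
          IsClosed {x | u.1 ≤ π x ∧ π x ≤ p ∧ ∀ ζ, ξ0 ≤ ζ → π (R ζ x) ≤ p} := fun u => by
        refine (isClosed_le continuous_const hπ).inter ((isClosed_le hπ continuous_const).inter ?_)
        change IsClosed {x | ∀ ζ, ξ0 ≤ ζ → π (R ζ x) ≤ p}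
        simp only [ofPred_forall]
        exact isClosed_iInter fun ζ => isClosed_iInter fun _ =>
          isClosed_le (hπ.comp (Rc ζ)) continuous_const
      obtain ⟨x, hx⟩ := IsCompact.nonempty_iInter_of_directed_nonempty_isCompact_isClosed
        (fun u : Iio p => {x | u.1 ≤ π x ∧ π x ≤ p ∧ ∀ ζ, ξ0 ≤ ζ → π (R ζ x) ≤ p})
        (fun a b => ⟨max a b, fun x hx => And.intro (le_trans (le_max_left a b) hx.1) hx.2,
          fun x hx => And.intro (le_trans (le_max_right a b) hx.1) hx.2⟩)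
        (fun u => hm u.1 u.2) (fun u => (cl u).isCompact) cl
      have x1 := mem_iInter.1 hx (Classical.arbitrary _)
      refine hn ⟨ξ0, hp, hz, x, x1.2.1.eq_or_lt.resolve_right fun e => ?_, fun ζ e =>
        lt_of_le_of_ne (x1.2.2 ζ e) (hz ζ _ (R1 ζ x).2)⟩
      obtain ⟨v, v1, v2⟩ := np p hp _ e
      exact absurd (mem_iInter.1 hx ⟨v, v2⟩).1 (not_le.2 v1)
    choose u u1 u2 using st
    choose nx z z1 z2 z3 using fun ξ => dn p hp _ (u1 ξ)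
    obtain ⟨ξ0, -⟩ := bdd countable_empty
    let ξ : ℕ → Om := fun n => (fun a => max a (nx a))^[n] ξ0
    have e1 : ∀ n, ξ (n + 1) = max (ξ n) (nx (ξ n)) := fun n => Function.iterate_succ_apply' _ _ _
    have e2 : Monotone ξ := monotone_nat_of_le_succ fun n => e1 n ▸ le_max_left _ _
    have e3 : ∀ n, z (ξ n) ∈ Y h (⋃ n, S (ξ n)) ∩ {y | π y ≤ p} := fun n =>
      ⟨Ym ((S2 (e1 n ▸ le_max_right _ _)).trans (subset_iUnion (fun n => S (ξ n)) (n + 1))) (z1 _),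
        (z3 _).le⟩
    obtain ⟨y, y1, y2⟩ := ((Yc hc _).inter (isClosed_le hπ continuous_const)
      ).isCompact.exists_isMaxOn ⟨_, e3 0⟩ hπ.continuousOn
    choose ζ f1 f2 using fun n => u2 (ξ n) y ((z2 _).le.trans (y2 (e3 n))) y1.2
    obtain ⟨b, hb⟩ := bd ξ
    exact hz b y (hb y1.1) (le_antisymm y1.2 (ge_of_tendsto' (lim ξ ζ e2 f1 y y1.1)
      fun n => (f2 n).le))
  let E : Om → Om → Set K := fun ξ0 ξ =>
    {p ∈ P ξ0 | ∀ q ∈ P ξ0, p < q → ∃ z ∈ Y h (S ξ), p < π z ∧ π z < q}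
  have Ec : ∀ ξ0 ξ, (E ξ0 ξ).Countable := fun ξ0 ξ => by
    have := Ys hc hi (S1 ξ)
    have := isCompact_iff_compactSpace.1 (Yc hc (S ξ)).isCompact
    have c := hπ.comp (continuous_subtype_val (p := (· ∈ Y h (S ξ))))
    refine clc c (fun p hp => ?_) fun p hp q hq e => ?_
    · convert (isOpen_Iio (a := p)).preimage c using 1
      ext z
      exact ⟨fun e => lt_of_le_of_ne e (hp.1.2.1 ξ _ z.2), fun e => le_of_lt e⟩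
    · obtain ⟨z, z1, z2, z3⟩ := hp.2 q hq.1 e
      exact ⟨⟨z, z1⟩, z2, z3.le⟩
  have pb : ∀ ξ0, ∀ p ∈ P ξ0, ∃ ξ, p ∈ E ξ0 ξ := by
    intro ξ0 p hp
    by_contra hn
    have st : ∀ ξ, ∃ ξ' x, ξ ≤ ξ' ∧ p ≤ π (R ξ' x) ∧ ∀ ζ, ξ0 ≤ ζ → ζ ≤ ξ → π (R ζ x) ≤ p := by
      intro ξ
      have h1 : ¬ ∀ q ∈ P ξ0, p < q → ∃ z ∈ Y h (S ξ), p < π z ∧ π z < q := fun e => hn ⟨ξ, hp, e⟩
      push Not at h1
      obtain ⟨q, ⟨q1, -, x, rfl, q2⟩, q3, q4⟩ := h1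
      obtain ⟨η, z, z1, z2, z3⟩ := dn _ q1 p q3
      obtain ⟨u, hu, v, hv, e1, e2, e3⟩ := g2 η z z1 _ z3
      obtain ⟨ζ, hζ⟩ := g1 u hu v hv e2
      refine ⟨max ξ ζ, x, le_max_left _ _, not_lt.1 fun e => absurd (hζ _ x (fun θ hθ =>
        (R1 _ x).1 θ (S2 (le_max_right _ _) hθ)) (e.le.trans (z2.le.trans e1))) (not_lt.2 e3),
        fun β b1 b2 => not_lt.1 fun e => ?_⟩
      exact absurd (q2 β b1) (not_lt.2 (q4 _ (Ym (S2 b2) (R1 β x).2) e))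
    choose nx x x1 x2 x3 using st
    let ξ : ℕ → Om := fun n => nx^[n] ξ0
    have e1 : ∀ n, ξ (n + 1) = nx (ξ n) := fun n => Function.iterate_succ_apply' _ _ _
    have e2 : Monotone ξ := monotone_nat_of_le_succ fun n => e1 n ▸ x1 _
    have cl : ∀ k, IsClosed (Y h (⋃ n, S (ξ n)) ∩ ({z | p ≤ π z} ∩
        {z | ∀ j ≤ k, π (R (ξ j) z) ≤ p})) := fun k => by
      refine (Yc hc _).inter ((isClosed_le continuous_const hπ).inter ?_)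
      simp only [ofPred_forall]
      exact isClosed_iInter fun ζ => isClosed_iInter fun _ =>
        isClosed_le (hπ.comp (Rc _)) continuous_const
    obtain ⟨z, hz⟩ := IsCompact.nonempty_iInter_of_sequence_nonempty_isCompact_isClosed
      (fun k => Y h (⋃ n, S (ξ n)) ∩ ({z | p ≤ π z} ∩ {z | ∀ j ≤ k, π (R (ξ j) z) ≤ p}))
      (fun k z hz => ⟨hz.1, hz.2.1, fun j hj => hz.2.2 j (hj.trans k.le_succ)⟩)
      (fun k => ⟨R (ξ (k + 1)) (x (ξ k)), Ym (subset_iUnion (fun n => S (ξ n)) (k + 1)) (R1 _ _).2,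
        by rw [e1]; exact x2 _, fun j hj => by
          have e : R (ξ j) (R (ξ (k + 1)) (x (ξ k))) = R (ξ j) (x (ξ k)) := hi (funext fun θ => by
            by_cases e : θ ∈ S (ξ j)
            · rw [(R1 _ _).1 θ e, (R1 _ _).1 θ e, (R1 _ _).1 θ (S2 (e2 (hj.trans k.le_succ)) e)]
            · rw [(R1 _ _).2 θ e, (R1 _ _).2 θ e])
          rw [e]
          exact x3 _ _ (e2 (Nat.zero_le j)) (e2 hj)⟩) (cl 0).isCompact cl
    have z1 := mem_iInter.1 hz 0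
    obtain ⟨b, hb⟩ := bd ξ
    exact hp.2.1 b z (hb z1.1) (le_antisymm (le_of_tendsto' (lim ξ ξ e2 (fun _ => le_rfl) z z1.1)
      fun n => (mem_iInter.1 hz n).2.2 n le_rfl) z1.2.1)
  have sub : {p : K | ¬ LC p} ⊆ ⋃ a : Om × Om, ((show Set K from JL (S a.1)) ∪ E a.1 a.2) := by
    intro p hp
    by_cases hz : ∀ ξ, ∀ z ∈ Y h (S ξ), π z ≠ p
    · obtain ⟨ξ0, h0⟩ := pa p hp hz
      obtain ⟨ξ, hξ⟩ := pb ξ0 p h0
      exact mem_iUnion.2 ⟨(ξ0, ξ), Or.inr hξ⟩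
    · push Not at hz
      obtain ⟨ξ, z, z1, rfl⟩ := hz
      refine mem_iUnion.2 ⟨(ξ, ξ), Or.inl ?_⟩
      by_contra hn
      refine hp ⟨(show Set K from JL (S ξ)) ∩ Iio (π z), (L1 _).mono inter_subset_left,
        fun c hc => hc.2, fun b hb => ?_⟩
      obtain ⟨u, u1, u2, u3⟩ := L2 _ (S1 ξ) z z1 b hb
      exact ⟨u, ⟨u1, lt_of_le_of_ne u2 fun e => hn (by exact e ▸ u1)⟩, le_of_lt u3⟩
  refine (Cardinal.mk_le_mk_of_subset sub).trans (Cardinal.mk_iUnion_le_sum_mk.trans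
    ((Cardinal.sum_le_sum _ (fun _ => Cardinal.aleph0) fun a =>
      Cardinal.le_aleph0_iff_set_countable.2 ((L1 _).union (Ec _ _))).trans ?_))
  simp [Cardinal.mk_ord_toType]

end Pool.Agent.H.MP_eb6644
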